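import Mathlib

/-!
# Every tropical polynomial is a quotient of two tropical products of units (MP_b8ee47_co, Q1)
-/

set_option autoImplicit false

namespace Pool.Agent.Results.MP_b8ee47_co.RationalFactorization

open Finset

/-! ### Definitions -/

variable {n : ℕ}

/-- an exponent vector as a point of `ℝⁿ` -/
def vec (a : Fin n → ℕ) : Fin n → ℝ := fun i => (a i : ℝ)

/-- the inner product of `ℝⁿ` -/
def dot (p x : Fin n → ℝ) : ℝ := ∑ i, p i * x i

/-- the tropical monomial `x ↦ c_a + a · x` -/
def mono (c : (Fin n → ℕ) → ℝ) (a : Fin n → ℕ) (x : Fin n → ℝ) : ℝ := c a + dot (vec a) x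

/-- the function `x ↦ max_{a ∈ A} (c_a + a · x)` -/
noncomputable def trop (A : Finset (Fin n → ℕ)) (hA : A.Nonempty) (c : (Fin n → ℕ) → ℝ) :
    (Fin n → ℝ) → ℝ :=
  fun x => A.sup' hA (fun a => mono c a x)

/-- tropical polynomials in `n` variables, as functions -/
def IsTropPoly (f : (Fin n → ℝ) → ℝ) : Prop :=
  ∃ (A : Finset (Fin n → ℕ)) (hA : A.Nonempty) (c : (Fin n → ℕ) → ℝ), f = trop A hA c

/-- the Newton polytope `conv A` -/
def newt (A : Finset (Fin n → ℕ)) : Set (Fin n → ℝ) :=
  convexHull ℝ {z | ∃ a ∈ A, z = vec a}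

/-- the lifted polytope `conv {(a, -c_a) : a ∈ A}` -/
def lifted (A : Finset (Fin n → ℕ)) (c : (Fin n → ℕ) → ℝ) : Set ((Fin n → ℝ) × ℝ) :=
  convexHull ℝ {z | ∃ a ∈ A, z = (vec a, -c a)}

/-- the lower face of the lifted polytope on which the functional `z ↦ z₂ - p · z₁` is minimal -/
def lowerFace (A : Finset (Fin n → ℕ)) (c : (Fin n → ℕ) → ℝ) (p : Fin n → ℝ) :
    Set ((Fin n → ℝ) × ℝ) :=
  {z | z ∈ lifted A c ∧ ∀ z' ∈ lifted A c, z.2 - dot p z.1 ≤ z'.2 - dot p z'.1}

/-- the cells of the regular subdivision of the Newton polytope: the projections of the lower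
faces of the lifted polytope -/
def IsCell (A : Finset (Fin n → ℕ)) (c : (Fin n → ℕ) → ℝ) (C : Set (Fin n → ℝ)) : Prop :=
  ∃ p : Fin n → ℝ, C = Prod.fst '' lowerFace A c p

/-- units: tropical polynomials whose regular subdivision is trivial, i.e. the whole Newton
polytope is a cell -/
def IsTropUnit (f : (Fin n → ℝ) → ℝ) : Prop :=
  ∃ (A : Finset (Fin n → ℕ)) (hA : A.Nonempty) (c : (Fin n → ℕ) → ℝ),
    f = trop A hA c ∧ IsCell A c (newt A)

/-- finite tropical products of units (the tropical product is the pointwise sum) -/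
def IsProductOfUnits (g : (Fin n → ℝ) → ℝ) : Prop :=
  ∃ l : List ((Fin n → ℝ) → ℝ), l ≠ [] ∧ (∀ u ∈ l, IsTropUnit u) ∧ g = l.sum

/-- rationally factorizable functions -/
def RationallyFactorizable (f : (Fin n → ℝ) → ℝ) : Prop :=
  ∃ g h : (Fin n → ℝ) → ℝ, IsProductOfUnits g ∧ IsProductOfUnits h ∧ ∀ x, f x + g x = h x

/-! ### A sufficient condition for units -/

lemma dot_lin (p : Fin n → ℝ) : ∃ φ : ((Fin n → ℝ) × ℝ) →ₗ[ℝ] ℝ, ∀ z, φ z = z.2 - dot p z.1 := by
  refine ⟨{ toFun := fun z => z.2 - dot p z.1, map_add' := ?_, map_smul' := ?_ }, fun z => rfl⟩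
  · intro x y
    simp only [dot, Prod.snd_add, Prod.fst_add, Pi.add_apply, mul_add, Finset.sum_add_distrib]
    ring
  · intro r x
    simp only [dot, Prod.smul_snd, Prod.smul_fst, Pi.smul_apply, smul_eq_mul, RingHom.id_apply,
      mul_sub, Finset.mul_sum]
    congr 1
    exact Finset.sum_congr rfl fun i _ => by ring

lemma isTropUnit_of_common (A : Finset (Fin n → ℕ)) (hA : A.Nonempty) (c : (Fin n → ℕ) → ℝ)
    (p : Fin n → ℝ) (y : ℝ) (h : ∀ a ∈ A, mono c a p = y) : IsTropUnit (trop A hA c) := by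
  refine ⟨A, hA, c, rfl, p, ?_⟩
  obtain ⟨φ, hφ⟩ := dot_lin p
  have hval : ∀ z ∈ lifted A c, z.2 - dot p z.1 = -y := by
    intro z hz
    rw [← hφ]
    have hsub : lifted A c ⊆ {z | φ z = -y} := by
      apply convexHull_min
      · rintro _ ⟨a, ha, rfl⟩
        have h1 := h a ha
        show φ (vec a, -c a) = -y
        rw [hφ]
        simp only
        have h2 : dot p (vec a) = dot (vec a) p := by
          unfold dot
          exact Finset.sum_congr rfl fun i _ => mul_comm _ _
        rw [h2, ← h1, mono]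
        ring
      · intro x hx y' hy' s t _ _ hst
        have hx' : φ x = -y := hx
        have hy'' : φ y' = -y := hy'
        show φ (s • x + t • y') = -y
        rw [map_add, map_smul, map_smul, hx', hy'', smul_eq_mul, smul_eq_mul, ← add_mul, hst,
          one_mul]
    exact hsub hz
  have hface : lowerFace A c p = lifted A c := by
    ext z
    constructor
    · exact fun hz => hz.1
    · intro hz
      exact ⟨hz, fun z' hz' => by rw [hval z hz, hval z' hz']⟩
  rw [hface, lifted, newt]
  have := LinearMap.image_convexHull (𝕜 := ℝ) (LinearMap.fst ℝ (Fin n → ℝ) ℝ)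
    {z | ∃ a ∈ A, z = (vec a, -c a)}
  have h3 : (Prod.fst : (Fin n → ℝ) × ℝ → (Fin n → ℝ)) = ⇑(LinearMap.fst ℝ (Fin n → ℝ) ℝ) := rfl
  rw [h3, this]
  congr 1
  ext z
  simp only [Set.mem_ofPred_eq, Set.mem_image, LinearMap.fst_apply]
  constructor
  · rintro ⟨a, ha, rfl⟩
    exact ⟨(vec a, -c a), ⟨a, ha, rfl⟩, rfl⟩
  · rintro ⟨_, ⟨a, ha, rfl⟩, rfl⟩
    exact ⟨a, ha, rfl⟩

lemma zero_unit : IsTropUnit (0 : (Fin n → ℝ) → ℝ) := by
  have h := isTropUnit_of_common (n := n) {0} (Finset.singleton_nonempty 0) 0 0 0 (by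
    intro a ha
    rw [Finset.mem_singleton] at ha
    subst ha
    simp [mono, dot, vec])
  have h2 : trop (n := n) {0} (Finset.singleton_nonempty 0) 0 = 0 := by
    funext x
    simp [trop, mono, dot, vec]
  rwa [h2] at h

/-! ### The group generated by the units -/

/-- the group generated by the units -/
def U (n : ℕ) : AddSubgroup ((Fin n → ℝ) → ℝ) := AddSubgroup.closure {u | IsTropUnit u}

lemma IsProductOfUnits.add {g h : (Fin n → ℝ) → ℝ} (hg : IsProductOfUnits g)
    (hh : IsProductOfUnits h) : IsProductOfUnits (g + h) := by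
  obtain ⟨l, h0, h1, rfl⟩ := hg
  obtain ⟨l', h0', h1', rfl⟩ := hh
  refine ⟨l ++ l', by simp [h0], ?_, by rw [List.sum_append]⟩
  intro u hu
  rw [List.mem_append] at hu
  rcases hu with hu | hu
  · exact h1 u hu
  · exact h1' u hu

lemma IsProductOfUnits.unit {g : (Fin n → ℝ) → ℝ} (hg : IsTropUnit g) : IsProductOfUnits g :=
  ⟨[g], by simp, by simpa using hg, by simp⟩

lemma fact_of_mem {f : (Fin n → ℝ) → ℝ} (hf : f ∈ U n) : RationallyFactorizable f := by
  unfold U at hf
  induction hf using AddSubgroup.closure_induction with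
  | mem x hx =>
    exact ⟨0, x, IsProductOfUnits.unit zero_unit, IsProductOfUnits.unit hx, fun y => by simp⟩
  | zero => exact ⟨0, 0, IsProductOfUnits.unit zero_unit, IsProductOfUnits.unit zero_unit,
      fun y => by simp⟩
  | add x y _ _ hx hy =>
    obtain ⟨g, h, hg, hh, e⟩ := hx
    obtain ⟨g', h', hg', hh', e'⟩ := hy
    refine ⟨g + g', h + h', hg.add hg', hh.add hh', fun z => ?_⟩
    have := e z
    have := e' z
    simp only [Pi.add_apply]
    linarith
  | neg x _ hx =>
    obtain ⟨g, h, hg, hh, e⟩ := hx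
    refine ⟨h, g, hh, hg, fun z => ?_⟩
    have := e z
    simp only [Pi.neg_apply]
    linarith

/-! ### Linear algebra: an affine dependence -/

/-- if the affine functions do not have a common point then there is an affine dependence -/
lemma exists_dep (A : Finset (Fin n → ℕ)) (c : (Fin n → ℕ) → ℝ)
    (h : ¬ ∃ (p : Fin n → ℝ) (y : ℝ), ∀ a ∈ A, mono c a p = y) :
    ∃ (lam : (Fin n → ℕ) → ℝ) (s : ℝ), 0 < s ∧ ∑ a ∈ A, lam a = 0 ∧
      ∀ x, ∑ a ∈ A, lam a * mono c a x = s := by
  classical
  -- the linear map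
  let M : ((Fin n → ℝ) × ℝ) →ₗ[ℝ] (A → ℝ) :=
    { toFun := fun z a => z.2 - dot (vec (a : Fin n → ℕ)) z.1
      map_add' := by
        intro x y
        funext a
        simp only [dot, Prod.snd_add, Prod.fst_add, Pi.add_apply, mul_add, Finset.sum_add_distrib]
        ring
      map_smul' := by
        intro r x
        funext a
        simp only [dot, Prod.smul_snd, Prod.smul_fst, Pi.smul_apply, smul_eq_mul,
          RingHom.id_apply, mul_sub, Finset.mul_sum]
        congr 1
        exact Finset.sum_congr rfl fun i _ => by ring }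
  have hM : ∀ z a, M z a = z.2 - dot (vec (a : Fin n → ℕ)) z.1 := fun _ _ => rfl
  have hc : (fun a : A => c a) ∉ LinearMap.range M := by
    rintro ⟨z, hz⟩
    apply h
    refine ⟨z.1, z.2, fun a ha => ?_⟩
    have h1 := congrFun hz ⟨a, ha⟩
    rw [hM] at h1
    simp only at h1
    rw [mono, ← h1]
    ring
  obtain ⟨φ, hφc, hφM⟩ := Submodule.exists_le_ker_of_notMem hc
  -- normalise the sign
  obtain ⟨ψ, hψc, hψM⟩ : ∃ ψ : (A → ℝ) →ₗ[ℝ] ℝ, 0 < ψ (fun a : A => c a) ∧
      ∀ z, ψ (M z) = 0 := by
    have h0 : ∀ z, φ (M z) = 0 := fun z => hφM ⟨z, rfl⟩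
    rcases lt_or_gt_of_ne hφc with h1 | h1
    · exact ⟨-φ, by simpa using h1, fun z => by simp [h0]⟩
    · exact ⟨φ, h1, h0⟩
  let lam : (Fin n → ℕ) → ℝ := fun a => if h : a ∈ A then ψ (Pi.single ⟨a, h⟩ 1) else 0
  have hsum : ∀ v : (Fin n → ℕ) → ℝ, ψ (fun a : A => v a) = ∑ a ∈ A, lam a * v a := by
    intro v
    rw [LinearMap.pi_apply_eq_sum_univ]
    rw [← Finset.sum_coe_sort A]
    refine Finset.sum_congr rfl fun a _ => ?_
    simp only [lam, a.2, dif_pos, smul_eq_mul]
    rw [mul_comm]
    congr 2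
    funext j
    rw [Pi.single_apply]
    by_cases hj : a = j
    · simp [hj]
    · rw [if_neg hj, if_neg (fun h => hj h.symm)]
  refine ⟨lam, ψ (fun a : A => c a), hψc, ?_, ?_⟩
  · have h1 := hψM (0, 1)
    have h2 : M (0, 1) = fun a : A => (fun _ : Fin n → ℕ => (1 : ℝ)) a := by
      funext a
      rw [hM]
      simp [dot]
    rw [h2, hsum (fun _ => (1 : ℝ))] at h1
    simpa using h1
  · intro x
    have h1 := hψM (x, 0)
    have h2 : M (x, 0) = fun a : A => (fun a' : Fin n → ℕ => -dot (vec a') x) a := by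
      funext a
      rw [hM]
      simp
    rw [h2, hsum (fun a' => -dot (vec a') x)] at h1
    rw [hsum]
    have h3 : ∑ a ∈ A, lam a * mono c a x = ∑ a ∈ A, lam a * c a -
        ∑ a ∈ A, lam a * -dot (vec a) x := by
      rw [← Finset.sum_sub_distrib]
      exact Finset.sum_congr rfl fun a _ => by rw [mono]; ring
    rw [h3, h1, sub_zero]

/-! ### Inclusion-exclusion -/

/-- total version of `trop` -/
noncomputable def tt (c : (Fin n → ℕ) → ℝ) (B : Finset (Fin n → ℕ)) : (Fin n → ℝ) → ℝ := by
  classical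
  exact if h : B.Nonempty then trop B h c else 0

lemma tt_eq (c : (Fin n → ℕ) → ℝ) {B : Finset (Fin n → ℕ)} (h : B.Nonempty) :
    tt c B = trop B h c := by
  unfold tt
  rw [dif_pos h]

lemma tt_insert [DecidableEq (Fin n → ℕ)] (c : (Fin n → ℕ) → ℝ) {B : Finset (Fin n → ℕ)}
    (h : B.Nonempty) (a : Fin n → ℕ) (x : Fin n → ℝ) (ha : ∃ b ∈ B, mono c a x ≤ mono c b x) :
    tt c (insert a B) x = tt c B x := by
  rw [tt_eq c h, tt_eq c (Finset.insert_nonempty a B)]
  unfold trop
  rw [Finset.sup'_insert h]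
  apply sup_eq_right.2
  obtain ⟨b, hb, hab⟩ := ha
  exact hab.trans (Finset.le_sup' (fun a => mono c a x) hb)

theorem mem_U (c : (Fin n → ℕ) → ℝ) : ∀ (k : ℕ) (A : Finset (Fin n → ℕ)), A.card = k →
    A.Nonempty → tt c A ∈ U n := by
  classical
  intro k
  induction k using Nat.strong_induction_on with
  | _ k ih =>
  intro A hAk hA
  by_cases hcom : ∃ (p : Fin n → ℝ) (y : ℝ), ∀ a ∈ A, mono c a p = y
  · obtain ⟨p, y, hp⟩ := hcom
    rw [tt_eq c hA]
    exact AddSubgroup.subset_closure (isTropUnit_of_common A hA c p y hp)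
  obtain ⟨lam, s, hs, h0, h1⟩ := exists_dep A c hcom
  let N := A.filter fun a => lam a < 0
  let R := A.filter fun a => ¬ lam a < 0
  have hNR : R ∪ N = A := by
    rw [Finset.union_comm]
    exact Finset.filter_union_filter_not_eq _ A
  have hdisj : Disjoint R N := (Finset.disjoint_filter_filter_not A A _).symm
  -- at each point some function of `N` is below some function of `R`
  have key : ∀ x, ∃ a ∈ N, ∃ b ∈ R, mono c a x ≤ mono c b x := by
    intro x
    by_contra hcon
    push Not at hcon
    -- a separating value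
    have hRne : R.Nonempty := by
      by_contra hR
      rw [Finset.not_nonempty_iff_eq_empty] at hR
      have hneg : ∀ a ∈ A, lam a < 0 := by
        intro a ha
        by_contra hl
        have : a ∈ R := Finset.mem_filter.2 ⟨ha, hl⟩
        rw [hR] at this
        exact absurd this (Finset.notMem_empty _)
      have := Finset.sum_neg hneg hA
      linarith
    let t := R.sup' hRne (fun a => mono c a x)
    have hle : ∑ a ∈ A, lam a * (mono c a x - t) ≤ 0 := by
      apply Finset.sum_nonpos
      intro a ha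
      by_cases hl : lam a < 0
      · have haN : a ∈ N := Finset.mem_filter.2 ⟨ha, hl⟩
        have : t ≤ mono c a x := Finset.sup'_le _ _ fun b hb => (hcon a haN b hb).le
        nlinarith
      · have haR : a ∈ R := Finset.mem_filter.2 ⟨ha, hl⟩
        have : mono c a x ≤ t := Finset.le_sup' (fun a => mono c a x) haR
        push Not at hl
        nlinarith
    have heq : ∑ a ∈ A, lam a * (mono c a x - t) = s := by
      have : ∑ a ∈ A, lam a * (mono c a x - t) =
          ∑ a ∈ A, lam a * mono c a x - (∑ a ∈ A, lam a) * t := by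
        rw [Finset.sum_mul, ← Finset.sum_sub_distrib]
        exact Finset.sum_congr rfl fun a _ => by ring
      rw [this, h0, h1]
      ring
    linarith
  have hRne : R.Nonempty := by
    obtain ⟨_, _, b, hb, _⟩ := key 0
    exact ⟨b, hb⟩
  -- the alternating sum vanishes
  have halt : ∑ T ∈ N.powerset, (-1 : ℤ) ^ T.card • tt c (R ∪ T) = 0 := by
    funext x
    obtain ⟨a, ha, b, hb, hab⟩ := key x
    rw [Finset.sum_apply]
    have hN : N = insert a (N.erase a) := (Finset.insert_erase ha).symm
    rw [hN, Finset.sum_powerset_insert (Finset.notMem_erase a N), ← Finset.sum_add_distrib]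
    apply Finset.sum_eq_zero
    intro T hT
    rw [Finset.mem_powerset] at hT
    have haT : a ∉ T := fun h => Finset.notMem_erase a N (hT h)
    rw [Finset.card_insert_of_notMem haT, Finset.union_insert, pow_succ]
    have h2 := tt_insert c (B := R ∪ T) (hRne.mono Finset.subset_union_left) a x
      ⟨b, Finset.mem_union_left _ hb, hab⟩
    simp only [Pi.smul_apply]
    rw [h2]
    simp
  -- isolate the term of `N`
  have hmem : (-1 : ℤ) ^ N.card • tt c A ∈ U n := by
    have h2 := Finset.sum_erase_add N.powerset (fun T => (-1 : ℤ) ^ T.card • tt c (R ∪ T))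
      (Finset.mem_powerset_self N)
    rw [halt, hNR] at h2
    rw [eq_neg_of_add_eq_zero_right h2]
    apply neg_mem
    apply sum_mem
    intro T hT
    rw [Finset.mem_erase, Finset.mem_powerset] at hT
    apply zsmul_mem
    refine ih (R ∪ T).card ?_ (R ∪ T) rfl (hRne.mono Finset.subset_union_left)
    have hss : T ⊂ N := Finset.ssubset_iff_subset_ne.2 ⟨hT.2, hT.1⟩
    have hc := Finset.card_lt_card hss
    have e1 : (R ∪ N).card = R.card + N.card := Finset.card_union_of_disjoint hdisj
    have e2 := Finset.card_union_le R T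
    rw [hNR, hAk] at e1
    omega
  have h3 := zsmul_mem hmem ((-1 : ℤ) ^ N.card)
  rwa [smul_smul, ← mul_pow, neg_one_mul, neg_neg, one_pow, one_smul] at h3

/-- Every tropical polynomial in `n` variables is rationally factorizable: there are finite tropical
products of units `g` and `h` with `f + g = h`. -/
theorem result : ∀ (n : ℕ) (f : (Fin n → ℝ) → ℝ), IsTropPoly f → RationallyFactorizable f := by
  rintro n _ ⟨A, hA, c, rfl⟩
  rw [← tt_eq c hA]
  exact fact_of_mem (mem_U c A.card A rfl hA)

end Pool.Agent.Results.MP_b8ee47_co.RationalFactorization
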